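import Pool.Agent.Helper66.HK.Stmts

/-! Sticky Kakeya sets, Hausdorff form: bounds for the noise (module NBZ). -/

namespace Pool.Agent.Helper66.HK

open Finset Pool.Agent.Helper69.RK

theorem nbz_cel {n m : ℕ} {y : Fin m → ℝ} (hy : ∀ i, 0 ≤ y i ∧ y i < 1) (i : Fin m) :
    (0 : ℝ) ≤ (cel n y i : ℝ) ∧ (cel n y i : ℝ) ≤ 2 ^ n - 1 := by
  have h2 : (0 : ℝ) < (2 : ℝ) ^ n := by positivity
  obtain ⟨h0, h1⟩ := hy i
  have e0 : 0 ≤ cel n y i := by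
    unfold cel
    exact Int.floor_nonneg.2 (by positivity)
  have e1 : cel n y i < (2 : ℤ) ^ n := by
    unfold cel
    rw [Int.floor_lt]
    push_cast
    nlinarith
  constructor
  · exact_mod_cast e0
  · have e2 : cel n y i ≤ (2 : ℤ) ^ n - 1 := by omega
    have e3 : ((cel n y i : ℤ) : ℝ) ≤ (((2 : ℤ) ^ n - 1 : ℤ) : ℝ) := by exact_mod_cast e2
    push_cast at e3
    exact e3

theorem nbz_card (h3 : ST_E3) {m n : ℕ} {Ω ζ : Type} [Fintype Ω] (μ : Ω → ℝ) (Z : Ω → ζ)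
    (x : Ω → Fin m → ℝ) (hn : ∀ ω, 0 ≤ μ ω) (hm : mass μ = 1)
    (hx : ∀ ω i, 0 ≤ x ω i ∧ x ω i < 1) : CH μ (fun ω => cel n (x ω)) Z ≤ m * n := by
  have h2 : (1 : ℝ) ≤ (2 : ℝ) ^ n := one_le_pow₀ (by norm_num)
  have key := h3.2 Ω ζ m μ (fun ω => cel n (x ω)) Z ((2 : ℝ) ^ n - 1) hn (by linarith) ?_
  · have e : Real.logb 2 ((2 : ℝ) ^ n - 1 + 1) = n := by
      rw [sub_add_cancel, Real.logb_pow, Real.logb_self_eq_one (by norm_num), mul_one]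
    rw [e, hm, mul_one] at key
    exact key
  · intro ω ω' _ _ _ i
    obtain ⟨a1, a2⟩ := nbz_cel (n := n) (hx ω) i
    obtain ⟨b1, b2⟩ := nbz_cel (n := n) (hx ω') i
    rw [abs_le]
    constructor <;> linarith

theorem nbz_upper (h1 : ST_E1) (h2 : ST_E2) {Ω ξ lam θ τ : Type} [Fintype Ω] (μ : Ω → ℝ)
    (X : Ω → ξ) (Λ : Ω → lam) (Θ : Ω → θ) (g : Ω → τ) (Y : Ω → lam) (hn : ∀ ω, 0 ≤ μ ω)
    (hY : Dep μ (fun ω => (Y ω, X ω, Θ ω, g ω)) Λ) :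
    CH μ Λ (fun ω => (Θ ω, g ω)) ≤
      CH μ Y (fun ω => (Θ ω, g ω)) + MI μ X (fun ω => (Θ ω, Λ ω)) g := by
  obtain ⟨-, c1, -⟩ := h1 Ω lam ξ (θ × τ) μ Λ X (fun ω => (Θ ω, g ω)) hn
  obtain ⟨-, c2, -⟩ := h1 Ω ξ lam (θ × τ) μ X Λ (fun ω => (Θ ω, g ω)) hn
  have c3 : CH μ (fun ω => (X ω, Λ ω)) (fun ω => (Θ ω, g ω)) ≤
      CH μ (fun ω => (Λ ω, X ω)) (fun ω => (Θ ω, g ω)) := by
    apply h2.1 _ _ _ _ _ _ _ _ hn
    intro ω ω' _ _ h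
    simp only [Prod.mk.injEq] at h ⊢
    exact ⟨h.1.2, h.1.1⟩
  have c4 : CH μ (fun ω => (Λ ω, X ω)) (fun ω => (Θ ω, g ω)) ≤
      CH μ (fun ω => (X ω, Λ ω)) (fun ω => (Θ ω, g ω)) := by
    apply h2.1 _ _ _ _ _ _ _ _ hn
    intro ω ω' _ _ h
    simp only [Prod.mk.injEq] at h ⊢
    exact ⟨h.1.2, h.1.1⟩
  obtain ⟨-, -, c5⟩ := h1 Ω ξ θ τ μ X Θ g hn
  have c6 : CH μ X (fun ω => ((Θ ω, Λ ω), g ω)) ≤ CH μ X (fun ω => (Λ ω, Θ ω, g ω)) := by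
    apply h2.2.1 _ _ _ _ _ _ _ _ hn
    intro ω ω' _ _ h
    simp only [Prod.mk.injEq] at h ⊢
    exact ⟨h.1.2, h.1.1, h.2⟩
  have c7 : CH μ Λ (fun ω => (X ω, Θ ω, g ω)) ≤ CH μ Y (fun ω => (X ω, Θ ω, g ω)) :=
    h2.1 _ _ _ _ _ _ _ _ hn hY
  obtain ⟨-, -, c8⟩ := h1 Ω lam ξ (θ × τ) μ Y X (fun ω => (Θ ω, g ω)) hn
  unfold MI
  linarith

theorem nbz_low (h1 : ST_E1) (h2 : ST_E2) {m : ℕ} {γ ν : ℝ}
    (hγ : ∀ δ : ℝ, 0 < δ → ¬ GapH m (γ - δ)) (hν : NB m γ ν) : 0 ≤ ν := by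
  by_contra hneg
  push Not at hneg
  obtain ⟨η, hη, n0, H⟩ := hν (-ν / 2) (by linarith)
  have hg := hγ (η / 2) (by linarith)
  unfold GapH at hg
  push Not at hg
  obtain ⟨ε', hε', hg⟩ := hg
  obtain ⟨n, hn, Ω, ζ, _, μ, Z, a, x, t, hs, hgap⟩ := hg η hη (max n0 1)
  have hn0 : n0 ≤ n := le_trans (le_max_left _ _) hn
  have hn1 : 1 ≤ n := le_trans (le_max_right _ _) hn
  have hnR : (1 : ℝ) ≤ (n : ℝ) := by exact_mod_cast hn1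
  have key := H n hn0 Ω ζ Unit μ Z a x t (fun _ => ()) (fun _ => 0) hs ?_ ?_
  · obtain ⟨k1, -, -⟩ := h1 Ω (Fin m → ℤ) Unit (Unit × ℝ × ζ) μ (fun _ => 0) (fun _ => ())
      (fun ω => ((), t ω, Z ω)) hs.nn
    have : (ν + -ν / 2) * (n : ℝ) < 0 := by nlinarith
    linarith
  · have e : CH μ (fun ω => (a ω, x ω)) (fun ω => (t ω, Z ω)) ≤
        CH μ (fun ω => (a ω, x ω)) (fun ω => (((), (0 : Fin m → ℤ)), t ω, Z ω)) := by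
      apply h2.2.1 _ _ _ _ _ _ _ _ hs.nn
      intro ω ω' _ _ h
      simp only [Prod.mk.injEq] at h ⊢
      exact ⟨trivial, h⟩
    have e2 : 0 ≤ η * n := by positivity
    unfold MI
    linarith
  · have e : CH μ (fun ω => Yn n (t ω) (a ω) (x ω) 0) (fun ω => ((), t ω, Z ω)) ≤
        CH μ (fun ω => Yn n (t ω) (a ω) (x ω) 0) (fun ω => (t ω, Z ω)) := by
      apply h2.2.1 _ _ _ _ _ _ _ _ hs.nn
      intro ω ω' _ _ h
      simp only [Prod.mk.injEq] at h ⊢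
      exact h.2
    have e2 : (fun ω => Yn n (t ω) (a ω) (x ω) 0) =
        (fun ω => cel n (Yt (t ω) (a ω) (x ω))) := by
      funext ω
      unfold Yn
      rw [add_zero]
    rw [e2] at e
    show CH μ (fun ω => Yn n (t ω) (a ω) (x ω) 0) (fun ω => ((), t ω, Z ω)) ≤ _
    rw [e2]
    have e3 : (γ - η / 2 + ε') * (n : ℝ) ≥ (γ - η) * n := by nlinarith
    linarith

theorem st_NBZ (h1 : ST_E1) (h2 : ST_E2) (h3 : ST_E3) : ST_NBZ := by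
  intro m γ hγ
  refine ⟨⟨m - γ, ?_⟩, fun ν hν => nbz_low h1 h2 hγ hν⟩
  intro ε hε
  refine ⟨ε / 2, by linarith, 0, ?_⟩
  intro n _ Ω ζ θ _ μ Z a x t Θ Λ hs hM hY
  have key := nbz_upper h1 h2 μ (fun ω => (a ω, x ω)) Λ Θ (fun ω => (t ω, Z ω))
    (fun ω => Yn n (t ω) (a ω) (x ω) (Λ ω)) hs.nn ?_
  · have hc := nbz_card h3 (n := n) μ Z x hs.nn hs.ms hs.xb
    have e : ((m : ℝ) - γ + ε) * n = m * n - (γ - ε / 2) * n + ε / 2 * n := by ring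
    rw [e]
    linarith
  · intro ω ω' _ _ h
    simp only [Prod.mk.injEq] at h
    obtain ⟨hy, ⟨ha, hx⟩, -, ht, -⟩ := h
    unfold Yn at hy
    rw [ha, hx, ht] at hy
    exact add_left_cancel hy

end Pool.Agent.Helper66.HK
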